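import Pool.Agent.H34.Rob.Sim

/-! `MP_e58ac0_co`: locatability of uniform subdivisions is monotone up to an additive constant:
if `G^{1/m}` is locatable and `m ≥ 2`, then `G^{1/M}` is locatable for every `M ≥ m + 26`. -/

set_option autoImplicit false

namespace Pool.Agent.Results.MP_e58ac0_co.UpToConstant

universe u

/-- For every connected graph `G` and all `m ≥ 2`, `M ≥ m + 26`: if `G^{1/m}` is locatable then so
is `G^{1/M}`. -/
theorem result : ∀ (V : Type u) (G : SimpleGraph V), G.Connected →
    ∀ m : ℕ, 2 ≤ m → H34Rob.Locatable (H34Rob.subdiv G m) →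
      ∀ M : ℕ, m + 26 ≤ M → H34Rob.Locatable (H34Rob.subdiv G M) :=
  fun V G hG m hm h M hM => H34Rob.main V G hG m hm h M hM

end Pool.Agent.Results.MP_e58ac0_co.UpToConstant
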